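import Mathlib
import Pool.Agent.H.MP_8d213d_nt.A

open Filter Polynomial

namespace Pool.Agent.Results.MP_8d213d_nt.Never

theorem result (α : ℝ) (h1 : 1 < α) (hi : IsIntegral ℤ α)
    (hle : ∀ β : ℂ, aeval β (minpoly ℚ α) = 0 → β ≠ α → ‖β‖ ≤ 1)
    (hex : ∃ β : ℂ, aeval β (minpoly ℚ α) = 0 ∧ ‖β‖ = 1) :
    ¬ IsClosed {t : ℝ | ∃ ξ : ℝ,
      limsup (fun n : ℕ => |ξ * α ^ n - round (ξ * α ^ n)|) atTop = t} :=
  Pool.Agent.H.MP_8d213d_nt.salem h1 hi hle hex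

end Pool.Agent.Results.MP_8d213d_nt.Never
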